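import Mathlib

/-!
# Mahler's quadratic analogue of the Farey determinant property fails

The list `L_n` of integer rows `(a, b, c)` is described by `IsMahlerList n L`.
We show that for every `n ≥ 1` there is exactly one such list, and that the determinant property
fails: for `n = 7` the rows `(7, -6, 1)`, `(6, 3, -1)`, `(7, 7, -2)` are consecutive and their
determinant is `-2`.
-/

open scoped Classical

namespace Pool.Agent.Results.MP_ca606e_nt.MahlerDisproof

/-- An entry of the list: a positive real root together with its row `(a, b, c)`. -/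
abbrev Entry := ℝ × ℤ × ℤ × ℤ

/-- The entries with a rational root: `p / q` in lowest terms with `1 ≤ p, q ≤ n` carries the
row `(0, q, -p)`. -/
def IsRatEntry (n : ℕ) (e : Entry) : Prop :=
  ∃ p q : ℕ, 1 ≤ p ∧ p ≤ n ∧ 1 ≤ q ∧ q ≤ n ∧ Nat.Coprime p q ∧
    e = ((p : ℝ) / (q : ℝ), (0, (q : ℤ), -(p : ℤ)))

/-- The entries with an irrational root: a positive irrational root `θ` of `a x ^ 2 + b x + c`,
where `a ≥ 1`, `gcd (a, b, c) = 1` and `max (a, |b|, |c|) ≤ n`, carries the row `(a, b, c)`. -/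
def IsQuadEntry (n : ℕ) (e : Entry) : Prop :=
  ∃ (θ : ℝ) (a b c : ℤ), e = (θ, (a, b, c)) ∧ 0 < θ ∧ Irrational θ ∧
    (a : ℝ) * θ ^ 2 + (b : ℝ) * θ + (c : ℝ) = 0 ∧
    1 ≤ a ∧ Int.gcd a (Int.gcd b c) = 1 ∧ a ≤ n ∧ |b| ≤ n ∧ |c| ≤ n

/-- `L` is the list `L_n`: it starts with `(0, 1, 0)` (root `0`), it ends with `(0, 0, 1)`
(root `∞`), and between them stand the rows of all entries, ordered by increasing root, each
rational entry twice and each irrational entry once. -/
def IsMahlerList (n : ℕ) (L : List (ℤ × ℤ × ℤ)) : Prop :=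
  ∃ M : List Entry, M.Pairwise (fun e f => e.1 ≤ f.1) ∧
    (∀ e : Entry, M.count e = if IsRatEntry n e then 2 else if IsQuadEntry n e then 1 else 0) ∧
    L = (0, 1, 0) :: (M.map Prod.snd ++ [(0, 0, 1)])

/-- The determinant of the matrix with the three given rows. -/
def rowDet (r s t : ℤ × ℤ × ℤ) : ℤ :=
  Matrix.det !![r.1, r.2.1, r.2.2; s.1, s.2.1, s.2.2; t.1, t.2.1, t.2.2]

/-! ## Entries are determined by their root -/

lemma IsRatEntry.not_quad {n : ℕ} {e : Entry} (h : IsRatEntry n e) : ¬ IsQuadEntry n e := by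
  rintro ⟨θ, a, b, c, he, -, -, -, ha, -⟩
  obtain ⟨p, q, -, -, -, -, -, he'⟩ := h
  rw [he'] at he
  simp only [Prod.mk.injEq] at he
  omega

lemma rat_eq_of_root {n : ℕ} {e f : Entry} (he : IsRatEntry n e) (hf : IsRatEntry n f)
    (h : e.1 = f.1) : e = f := by
  obtain ⟨p, q, hp, -, hq, -, hpq, rfl⟩ := he
  obtain ⟨p', q', hp', -, hq', -, hpq', rfl⟩ := hf
  simp only at h
  have hq0 : (q : ℝ) ≠ 0 := by positivity
  have hq0' : (q' : ℝ) ≠ 0 := by positivity
  rw [div_eq_div_iff hq0 hq0'] at h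
  have h' : p * q' = p' * q := by exact_mod_cast h
  have h1 : p ∣ p' := by
    have : p ∣ p' * q := ⟨q', h'.symm⟩
    exact hpq.dvd_of_dvd_mul_right this
  have h2 : p' ∣ p := by
    have : p' ∣ p * q' := ⟨q, h'⟩
    exact hpq'.dvd_of_dvd_mul_right this
  have h3 : p = p' := Nat.dvd_antisymm h1 h2
  subst h3
  have h4 : q' = q := Nat.eq_of_mul_eq_mul_left (by omega) h'
  subst h4
  rfl

lemma not_rat_quad {n : ℕ} {e f : Entry} (he : IsRatEntry n e) (hf : IsQuadEntry n f)
    (h : e.1 = f.1) : False := by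
  obtain ⟨p, q, -, -, -, -, -, rfl⟩ := he
  obtain ⟨θ, a, b, c, rfl, -, hθ, -⟩ := hf
  simp only at h
  apply hθ
  rw [← h]
  exact ⟨(p : ℚ) / (q : ℚ), by push_cast; rfl⟩

lemma quad_eq_of_root {n : ℕ} {e f : Entry} (he : IsQuadEntry n e) (hf : IsQuadEntry n f)
    (h : e.1 = f.1) : e = f := by
  obtain ⟨θ, a, b, c, rfl, -, hθ, h0, ha, hg, -⟩ := he
  obtain ⟨θ', a', b', c', rfl, -, -, h0', ha', hg', -⟩ := hf
  simp only at h
  subst h
  have h1 : ((a' * b - a * b' : ℤ) : ℝ) * θ = ((a * c' - a' * c : ℤ) : ℝ) := by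
    push_cast
    linear_combination (a' : ℝ) * h0 - (a : ℝ) * h0'
  have h2 : a' * b - a * b' = 0 := by
    by_contra hne
    have hne' : ((a' * b - a * b' : ℤ) : ℝ) ≠ 0 := by exact_mod_cast hne
    apply hθ
    refine ⟨((a * c' - a' * c : ℤ) : ℚ) / ((a' * b - a * b' : ℤ) : ℚ), ?_⟩
    rw [Rat.cast_div, Rat.cast_intCast, Rat.cast_intCast, div_eq_iff hne', ← h1, mul_comm]
  have h3 : a * c' - a' * c = 0 := by
    rw [h2] at h1
    simp only [Int.cast_zero, zero_mul] at h1
    exact_mod_cast h1.symm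
  have hab : a' * b = a * b' := by linarith
  have hac : a' * c = a * c' := by linarith
  have hdvd : ∀ x y b c b' c' : ℤ, Int.gcd y (Int.gcd b' c') = 1 → x * b' = y * b →
      x * c' = y * c → y ∣ x := by
    intro x y b c b' c' hg hb hc
    have e1 : y ∣ x * b' := ⟨b, hb⟩
    have e2 : y ∣ x * c' := ⟨c, hc⟩
    have e3 : y ∣ x * (Int.gcd b' c' : ℤ) := by
      rw [Int.gcd_eq_gcd_ab, mul_add, ← mul_assoc, ← mul_assoc]
      exact dvd_add (Dvd.dvd.mul_right e1 _) (Dvd.dvd.mul_right e2 _)
    have e4 : IsCoprime y (Int.gcd b' c' : ℤ) := Int.isCoprime_iff_gcd_eq_one.mpr hg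
    exact e4.dvd_of_dvd_mul_right e3
  have d1 : a ∣ a' := hdvd a' a b' c' b c hg (by linarith) (by linarith)
  have d2 : a' ∣ a := hdvd a a' b c b' c' hg' (by linarith) (by linarith)
  have haa : a = a' := Int.dvd_antisymm (by omega) (by omega) d1 d2
  subst haa
  have ha0 : a ≠ 0 := by omega
  have hb : b = b' := mul_left_cancel₀ ha0 hab
  have hc : c = c' := mul_left_cancel₀ ha0 hac
  subst hb; subst hc
  rfl

lemma entry_eq_of_root {n : ℕ} {e f : Entry} (he : IsRatEntry n e ∨ IsQuadEntry n e)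
    (hf : IsRatEntry n f ∨ IsQuadEntry n f) (h : e.1 = f.1) : e = f := by
  rcases he with he | he <;> rcases hf with hf | hf
  · exact rat_eq_of_root he hf h
  · exact (not_rat_quad he hf h).elim
  · exact (not_rat_quad hf he h.symm).elim
  · exact quad_eq_of_root he hf h

/-! ## There are finitely many entries -/

lemma finite_rat (n : ℕ) : {e : Entry | IsRatEntry n e}.Finite := by
  apply Set.Finite.subset (s := (fun x : ℕ × ℕ => (((x.1 : ℝ) / (x.2 : ℝ),
    ((0 : ℤ), (x.2 : ℤ), -(x.1 : ℤ))) : Entry)) '' (Set.Icc 1 n ×ˢ Set.Icc 1 n))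
  · exact ((Set.finite_Icc 1 n).prod (Set.finite_Icc 1 n)).image _
  · rintro e ⟨p, q, h1, h2, h3, h4, -, rfl⟩
    exact ⟨(p, q), ⟨⟨h1, h2⟩, ⟨h3, h4⟩⟩, rfl⟩

lemma finite_quad (n : ℕ) : {e : Entry | IsQuadEntry n e}.Finite := by
  set box : Set (ℤ × ℤ × ℤ) :=
    Set.Icc (-(n : ℤ)) n ×ˢ (Set.Icc (-(n : ℤ)) n ×ˢ Set.Icc (-(n : ℤ)) n) with hbox
  have hfin : box.Finite :=
    (Set.finite_Icc _ _).prod ((Set.finite_Icc _ _).prod (Set.finite_Icc _ _))
  let g : ℝ → ℤ × ℤ × ℤ → Entry := fun s r =>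
    ((-(r.2.1 : ℝ) + s * Real.sqrt ((r.2.1 : ℝ) ^ 2 - 4 * r.1 * r.2.2)) / (2 * r.1), r)
  apply Set.Finite.subset (s := (g 1 '' box) ∪ (g (-1) '' box))
  · exact (hfin.image _).union (hfin.image _)
  · rintro e ⟨θ, a, b, c, rfl, -, -, h0, ha, -, h1, h2, h3⟩
    have ha0 : (a : ℝ) ≠ 0 := by exact_mod_cast (by omega : a ≠ 0)
    have hmem : (a, b, c) ∈ box := by
      rw [abs_le] at h2 h3
      refine ⟨⟨?_, ?_⟩, ⟨?_, ?_⟩, ⟨?_, ?_⟩⟩ <;> simp only <;> omega
    have hsq : (2 * a * θ + b) ^ 2 = (b : ℝ) ^ 2 - 4 * a * c := by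
      linear_combination 4 * (a : ℝ) * h0
    have habs : Real.sqrt ((b : ℝ) ^ 2 - 4 * a * c) = |2 * a * θ + b| := by
      rw [← hsq, Real.sqrt_sq_eq_abs]
    rcases abs_choice (2 * (a : ℝ) * θ + b) with h | h
    · left
      refine ⟨(a, b, c), hmem, ?_⟩
      simp only [g, habs, h, Prod.mk.injEq, and_true]
      field_simp
      ring
    · right
      refine ⟨(a, b, c), hmem, ?_⟩
      simp only [g, habs, h, Prod.mk.injEq, and_true]
      field_simp
      ring

/-! ## Existence and uniqueness of the list -/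

/-- The inner list of entries for `n`. -/
def IsInner (n : ℕ) (M : List Entry) : Prop :=
  M.Pairwise (fun e f => e.1 ≤ f.1) ∧
    (∀ e : Entry, M.count e = if IsRatEntry n e then 2 else if IsQuadEntry n e then 1 else 0)

lemma exists_inner (n : ℕ) : ∃ M : List Entry, IsInner n M := by
  let R : Finset Entry := (finite_rat n).toFinset
  let Q : Finset Entry := (finite_quad n).toFinset
  let l : List Entry := R.toList ++ R.toList ++ Q.toList
  let le : Entry → Entry → Bool := fun e f => decide (e.1 ≤ f.1)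
  refine ⟨l.mergeSort le, ?_, ?_⟩
  · have := List.pairwise_mergeSort (le := le)
      (by intro a b c hab hbc
          simp only [le, decide_eq_true_eq] at *
          exact le_trans hab hbc)
      (by intro a b
          simp only [le, Bool.or_eq_true, decide_eq_true_eq]
          exact le_total _ _) l
    refine this.imp ?_
    intro a b hab
    simpa [le] using hab
  · intro e
    rw [(List.mergeSort_perm l le).count_eq]
    have hR : R.toList.count e = if IsRatEntry n e then 1 else 0 := by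
      by_cases h : IsRatEntry n e
      · rw [if_pos h]
        exact List.count_eq_one_of_mem R.nodup_toList (by simpa [R] using h)
      · rw [if_neg h]
        exact List.count_eq_zero_of_not_mem (by simpa [R] using h)
    have hQ : Q.toList.count e = if IsQuadEntry n e then 1 else 0 := by
      by_cases h : IsQuadEntry n e
      · rw [if_pos h]
        exact List.count_eq_one_of_mem Q.nodup_toList (by simpa [Q] using h)
      · rw [if_neg h]
        exact List.count_eq_zero_of_not_mem (by simpa [Q] using h)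
    simp only [l, List.count_append, hR, hQ]
    by_cases h1 : IsRatEntry n e
    · simp [h1, h1.not_quad]
    · by_cases h2 : IsQuadEntry n e
      · simp [h1, h2]
      · simp [h1, h2]

lemma IsInner.mem {n : ℕ} {M : List Entry} (hM : IsInner n M) {e : Entry} (he : e ∈ M) :
    IsRatEntry n e ∨ IsQuadEntry n e := by
  by_contra h
  rw [not_or] at h
  have := hM.2 e
  rw [if_neg h.1, if_neg h.2] at this
  exact (List.count_eq_zero.mp this) he

lemma inner_unique {n : ℕ} {M N : List Entry} (hM : IsInner n M) (hN : IsInner n N) : M = N := by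
  have hperm : M.Perm N := by
    rw [List.perm_iff_count]
    intro e
    rw [hM.2 e, hN.2 e]
  refine hperm.eq_of_pairwise ?_ hM.1 hN.1
  intro a b ha hb hab hba
  exact entry_eq_of_root (hM.mem ha) (hN.mem hb) (le_antisymm hab hba)

lemma exists_unique_list (n : ℕ) : ∃! L, IsMahlerList n L := by
  obtain ⟨M, hM⟩ := exists_inner n
  refine ⟨(0, 1, 0) :: (M.map Prod.snd ++ [(0, 0, 1)]), ⟨M, hM.1, hM.2, rfl⟩, ?_⟩
  rintro L ⟨N, hN1, hN2, rfl⟩
  rw [inner_unique (n := n) (M := N) (N := M) ⟨hN1, hN2⟩ hM]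

/-! ## The three entries for `n = 7` -/

/-- The root `(3 - √2) / 7` of `7 x ^ 2 - 6 x + 1`. -/
noncomputable def r1 : ℝ := (3 - Real.sqrt 2) / 7

/-- The root `(-3 + √33) / 12` of `6 x ^ 2 + 3 x - 1`. -/
noncomputable def r2 : ℝ := (-3 + Real.sqrt 33) / 12

/-- The root `(-7 + √105) / 14` of `7 x ^ 2 + 7 x - 2`. -/
noncomputable def r3 : ℝ := (-7 + Real.sqrt 105) / 14

lemma s2 : Real.sqrt 2 ^ 2 = 2 := Real.sq_sqrt (by norm_num)
lemma s33 : Real.sqrt 33 ^ 2 = 33 := Real.sq_sqrt (by norm_num)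
lemma s105 : Real.sqrt 105 ^ 2 = 105 := Real.sq_sqrt (by norm_num)

lemma r1_root : 7 * r1 ^ 2 - 6 * r1 + 1 = 0 := by
  unfold r1; linear_combination s2 / 7

lemma r2_root : 6 * r2 ^ 2 + 3 * r2 - 1 = 0 := by
  unfold r2; linear_combination s33 / 24

lemma r3_root : 7 * r3 ^ 2 + 7 * r3 - 2 = 0 := by
  unfold r3; linear_combination s105 / 28

lemma sqrt_bounds {x l u : ℝ} (h1 : l ^ 2 < x) (h2 : x < u ^ 2)
    (hu : 0 < u) : l < Real.sqrt x ∧ Real.sqrt x < u :=
  ⟨Real.lt_sqrt_of_sq_lt h1, (Real.sqrt_lt' hu).mpr h2⟩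

lemma b2 : (1.414 : ℝ) < Real.sqrt 2 ∧ Real.sqrt 2 < 1.415 :=
  sqrt_bounds (by norm_num) (by norm_num) (by norm_num)
lemma b33 : (5.744 : ℝ) < Real.sqrt 33 ∧ Real.sqrt 33 < 5.745 :=
  sqrt_bounds (by norm_num) (by norm_num) (by norm_num)
lemma b105 : (10.246 : ℝ) < Real.sqrt 105 ∧ Real.sqrt 105 < 10.247 :=
  sqrt_bounds (by norm_num) (by norm_num) (by norm_num)

lemma lo_r1 : (63 / 280 : ℝ) < r1 := by
  unfold r1; have := b2; linarith [this.1, this.2]
lemma r1_lt_r2 : r1 < r2 := by
  unfold r1 r2; have h := b2; have h' := b33; linarith [h.1, h.2, h'.1, h'.2]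
lemma r2_lt_r3 : r2 < r3 := by
  unfold r2 r3; have h := b33; have h' := b105; linarith [h.1, h.2, h'.1, h'.2]
lemma r3_hi : r3 < (65 / 280 : ℝ) := by
  unfold r3; have := b105; linarith [this.1, this.2]

noncomputable def e1 : Entry := (r1, (7, -6, 1))
noncomputable def e2 : Entry := (r2, (6, 3, -1))
noncomputable def e3 : Entry := (r3, (7, 7, -2))

lemma irr_r1 : Irrational r1 := by
  have h : Irrational (Real.sqrt 2) := irrational_sqrt_two
  intro ⟨x, hx⟩
  apply h
  refine ⟨3 - 7 * x, ?_⟩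
  push_cast
  rw [hx]; unfold r1; ring

lemma irr_sqrt_of {k m : ℕ} (h1 : m ^ 2 < k) (h2 : k < (m + 1) ^ 2) :
    Irrational (Real.sqrt k) := by
  rw [irrational_sqrt_natCast_iff]
  rintro ⟨r, hr⟩
  have h3 : m < r := by nlinarith
  have h4 : r < m + 1 := by nlinarith
  omega

lemma irr_r2 : Irrational r2 := by
  have h : Irrational (Real.sqrt (33 : ℕ)) := irr_sqrt_of (m := 5) (by norm_num) (by norm_num)
  intro ⟨x, hx⟩
  apply h
  refine ⟨12 * x + 3, ?_⟩
  push_cast
  rw [hx]; unfold r2; ring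

lemma irr_r3 : Irrational r3 := by
  have h : Irrational (Real.sqrt (105 : ℕ)) := irr_sqrt_of (m := 10) (by norm_num) (by norm_num)
  intro ⟨x, hx⟩
  apply h
  refine ⟨14 * x + 7, ?_⟩
  push_cast
  rw [hx]; unfold r3; ring

lemma quad_e1 : IsQuadEntry 7 e1 := by
  refine ⟨r1, 7, -6, 1, rfl, by linarith [lo_r1], irr_r1, ?_, by norm_num, by decide,
    by norm_num, by norm_num, by norm_num⟩
  push_cast
  linarith [r1_root]

lemma quad_e2 : IsQuadEntry 7 e2 := by
  refine ⟨r2, 6, 3, -1, rfl, by linarith [lo_r1, r1_lt_r2], irr_r2, ?_, by norm_num, by decide,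
    by norm_num, by norm_num, by norm_num⟩
  push_cast
  linarith [r2_root]

lemma quad_e3 : IsQuadEntry 7 e3 := by
  refine ⟨r3, 7, 7, -2, rfl, by linarith [lo_r1, r1_lt_r2, r2_lt_r3], irr_r3, ?_, by norm_num,
    by decide, by norm_num, by norm_num, by norm_num⟩
  push_cast
  linarith [r3_root]

/-- Values of the quadratic at the two ends of the interval, scaled by `280 ^ 2`. -/
def val (x a b c : ℤ) : ℤ := a * x ^ 2 + b * x * 280 + c * 280 ^ 2

/-- A certificate that `a x ^ 2 + b x + c` with `a ≥ 1` has no root in `[63/280, 65/280]`. -/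
def noRoot (a b c : ℤ) : Bool :=
  (decide (val 63 a b c < 0) && decide (val 65 a b c < 0)) ||
  (decide (0 < val 63 a b c) && decide (0 ≤ 2 * a * 63 + b * 280)) ||
  (decide (0 < val 65 a b c) && decide (2 * a * 65 + b * 280 ≤ 0))

lemma noRoot_sound {a b c : ℤ} (ha : 1 ≤ a) (h : noRoot a b c = true) {θ : ℝ}
    (h1 : (63 / 280 : ℝ) ≤ θ) (h2 : θ ≤ 65 / 280) :
    (a : ℝ) * θ ^ 2 + (b : ℝ) * θ + (c : ℝ) ≠ 0 := by
  intro h0
  have ha' : (1 : ℝ) ≤ a := by exact_mod_cast ha
  simp only [noRoot, Bool.or_eq_true, Bool.and_eq_true, val] at h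
  rcases h with (⟨h3, h4⟩ | ⟨h3, h4⟩) | ⟨h3, h4⟩ <;>
    replace h3 := of_decide_eq_true h3 <;> replace h4 := of_decide_eq_true h4
  · have h3' : (a : ℝ) * 63 ^ 2 + b * 63 * 280 + c * 280 ^ 2 < 0 := by exact_mod_cast h3
    have h4' : (a : ℝ) * 65 ^ 2 + b * 65 * 280 + c * 280 ^ 2 < 0 := by exact_mod_cast h4
    -- convexity
    have k1 : 0 ≤ (θ - 63 / 280) := by linarith
    have k2 : 0 ≤ (65 / 280 - θ) := by linarith
    have k3 : 0 ≤ (a : ℝ) * ((θ - 63 / 280) * (65 / 280 - θ)) := by positivity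
    have k4 : (a : ℝ) * (63 / 280) ^ 2 + b * (63 / 280) + c < 0 := by linarith
    have k5 : (a : ℝ) * (65 / 280) ^ 2 + b * (65 / 280) + c < 0 := by linarith
    have k6 : (a : ℝ) * θ ^ 2 + b * θ + c =
        140 * ((65 / 280 - θ) * ((a : ℝ) * (63 / 280) ^ 2 + b * (63 / 280) + c)) +
        140 * ((θ - 63 / 280) * ((a : ℝ) * (65 / 280) ^ 2 + b * (65 / 280) + c)) -
        (a : ℝ) * ((θ - 63 / 280) * (65 / 280 - θ)) := by ring
    rcases eq_or_lt_of_le k1 with k | k
    · have : θ = 63 / 280 := by linarith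
      rw [this] at h0
      linarith
    · have m1 : (65 / 280 - θ) * ((a : ℝ) * (63 / 280) ^ 2 + b * (63 / 280) + c) ≤ 0 :=
        mul_nonpos_of_nonneg_of_nonpos k2 k4.le
      have m2 : (θ - 63 / 280) * ((a : ℝ) * (65 / 280) ^ 2 + b * (65 / 280) + c) < 0 :=
        mul_neg_of_pos_of_neg k k5
      linarith
  · have h3' : (0 : ℝ) < (a : ℝ) * 63 ^ 2 + b * 63 * 280 + c * 280 ^ 2 := by exact_mod_cast h3
    have h4' : (0 : ℝ) ≤ 2 * (a : ℝ) * 63 + b * 280 := by exact_mod_cast h4
    have k1 : 0 ≤ (θ - 63 / 280) := by linarith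
    have k4 : 0 < (a : ℝ) * (63 / 280) ^ 2 + b * (63 / 280) + c := by linarith
    have k5 : 0 ≤ 2 * (a : ℝ) * (63 / 280) + b := by linarith
    have k6 : (a : ℝ) * θ ^ 2 + b * θ + c = ((a : ℝ) * (63 / 280) ^ 2 + b * (63 / 280) + c) +
        (θ - 63 / 280) * (2 * (a : ℝ) * (63 / 280) + b) + (a : ℝ) * (θ - 63 / 280) ^ 2 := by ring
    have m1 : 0 ≤ (θ - 63 / 280) * (2 * (a : ℝ) * (63 / 280) + b) := mul_nonneg k1 k5
    have m2 : 0 ≤ (a : ℝ) * (θ - 63 / 280) ^ 2 := by positivity
    linarith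
  · have h3' : (0 : ℝ) < (a : ℝ) * 65 ^ 2 + b * 65 * 280 + c * 280 ^ 2 := by exact_mod_cast h3
    have h4' : 2 * (a : ℝ) * 65 + b * 280 ≤ 0 := by exact_mod_cast h4
    have k1 : 0 ≤ (65 / 280 - θ) := by linarith
    have k4 : 0 < (a : ℝ) * (65 / 280) ^ 2 + b * (65 / 280) + c := by linarith
    have k5 : 0 ≤ -(2 * (a : ℝ) * (65 / 280) + b) := by linarith
    have k6 : (a : ℝ) * θ ^ 2 + b * θ + c = ((a : ℝ) * (65 / 280) ^ 2 + b * (65 / 280) + c) +
        (65 / 280 - θ) * (-(2 * (a : ℝ) * (65 / 280) + b)) + (a : ℝ) * (65 / 280 - θ) ^ 2 := by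
      ring
    have m1 : 0 ≤ (65 / 280 - θ) * (-(2 * (a : ℝ) * (65 / 280) + b)) := mul_nonneg k1 k5
    have m2 : 0 ≤ (a : ℝ) * (65 / 280 - θ) ^ 2 := by positivity
    linarith

/-- The finite check, by kernel evaluation. -/
lemma check : ∀ a ∈ Finset.Icc (1 : ℤ) 7, ∀ b ∈ Finset.Icc (-7 : ℤ) 7, ∀ c ∈ Finset.Icc (-7 : ℤ) 7,
    noRoot a b c = true ∨ (a, b, c) = (7, -6, 1) ∨ (a, b, c) = (6, 3, -1) ∨
      (a, b, c) = (7, 7, -2) := by
  decide +kernel

lemma checkRat : ∀ p ∈ Finset.Icc (1 : ℕ) 7, ∀ q ∈ Finset.Icc (1 : ℕ) 7,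
    280 * p < 63 * q ∨ 65 * q < 280 * p := by
  decide

lemma between {e : Entry} (he : IsRatEntry 7 e ∨ IsQuadEntry 7 e) (h1 : r1 ≤ e.1)
    (h2 : e.1 ≤ r3) : e = e1 ∨ e = e2 ∨ e = e3 := by
  have hlo : (63 / 280 : ℝ) < e.1 := lt_of_lt_of_le lo_r1 h1
  have hhi : e.1 < (65 / 280 : ℝ) := lt_of_le_of_lt h2 r3_hi
  rcases he with ⟨p, q, hp, hp', hq, hq', -, rfl⟩ | ⟨θ, a, b, c, rfl, -, -, h0, ha, -, ha', hb, hc⟩
  · exfalso
    simp only at hlo hhi
    have hq0 : (0 : ℝ) < q := by exact_mod_cast hq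
    rw [lt_div_iff₀ hq0] at hlo
    rw [div_lt_iff₀ hq0] at hhi
    rcases checkRat p (Finset.mem_Icc.mpr ⟨hp, hp'⟩) q (Finset.mem_Icc.mpr ⟨hq, hq'⟩) with h | h
    · have h' : (280 : ℝ) * p < 63 * q := by exact_mod_cast h
      linarith
    · have h' : (65 : ℝ) * q < 280 * p := by exact_mod_cast h
      linarith
  · simp only at hlo hhi h1 h2
    rw [abs_le] at hb hc
    rcases check a (Finset.mem_Icc.mpr ⟨ha, by exact_mod_cast ha'⟩) b
      (Finset.mem_Icc.mpr ⟨by exact_mod_cast hb.1, by exact_mod_cast hb.2⟩) c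
      (Finset.mem_Icc.mpr ⟨by exact_mod_cast hc.1, by exact_mod_cast hc.2⟩) with h | h | h | h
    · exact (noRoot_sound ha h hlo.le hhi.le h0).elim
    · left
      simp only [Prod.mk.injEq] at h
      obtain ⟨rfl, rfl, rfl⟩ := h
      push_cast at h0
      have hr := r1_root
      have hfac : (θ - r1) * (7 * (θ + r1) - 6) = 0 := by linear_combination h0 - hr
      rcases mul_eq_zero.mp hfac with h | h
      · have : θ = r1 := by linarith
        subst this; rfl
      · exfalso
        have := lo_r1; have := r1_lt_r2; have := r2_lt_r3; have := r3_hi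
        linarith
    · right; left
      simp only [Prod.mk.injEq] at h
      obtain ⟨rfl, rfl, rfl⟩ := h
      push_cast at h0
      have hr := r2_root
      have hfac : (θ - r2) * (6 * (θ + r2) + 3) = 0 := by linear_combination h0 - hr
      rcases mul_eq_zero.mp hfac with h | h
      · have : θ = r2 := by linarith
        subst this; rfl
      · exfalso
        have := lo_r1; have := r1_lt_r2; have := r2_lt_r3; have := r3_hi
        linarith
    · right; right
      simp only [Prod.mk.injEq] at h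
      obtain ⟨rfl, rfl, rfl⟩ := h
      push_cast at h0
      have hr := r3_root
      have hfac : (θ - r3) * (7 * (θ + r3) + 7) = 0 := by linear_combination h0 - hr
      rcases mul_eq_zero.mp hfac with h | h
      · have : θ = r3 := by linarith
        subst this; rfl
      · exfalso
        have := lo_r1; have := r1_lt_r2; have := r2_lt_r3; have := r3_hi
        linarith

/-! ## The three rows are consecutive in `L_7` -/

lemma count_filter_real (M : List Entry) (p : Entry → Prop) (e : Entry) :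
    (M.filter (fun x => decide (p x))).count e = if p e then M.count e else 0 := by
  by_cases h : p e
  · rw [if_pos h, List.count_filter (by simpa using h)]
  · rw [if_neg h]
    apply List.count_eq_zero_of_not_mem
    intro hmem
    rw [List.mem_filter] at hmem
    exact h (by simpa using hmem.2)

lemma inner_seven : ∃ A B : List Entry, IsInner 7 (A ++ [e1, e2, e3] ++ B) := by
  obtain ⟨M, hM⟩ := exists_inner 7
  set A := M.filter (fun x => decide (x.1 < r1)) with hA
  set B := M.filter (fun x => decide (r3 < x.1)) with hB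
  have h12 := r1_lt_r2
  have h23 := r2_lt_r3
  have hne12 : e1 ≠ e2 := by
    intro h; have := congrArg Prod.fst h; simp only [e1, e2] at this; linarith
  have hne13 : e1 ≠ e3 := by
    intro h; have := congrArg Prod.fst h; simp only [e1, e3] at this; linarith
  have hne23 : e2 ≠ e3 := by
    intro h; have := congrArg Prod.fst h; simp only [e2, e3] at this; linarith
  refine ⟨A, B, ?_, ?_⟩
  · rw [List.pairwise_append, List.pairwise_append]
    refine ⟨⟨hM.1.filter _, ?_, ?_⟩, hM.1.filter _, ?_⟩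
    · simp only [List.pairwise_cons, List.mem_cons, List.not_mem_nil, or_false,
        forall_eq_or_imp, forall_eq, e1, e2, e3]
      refine ⟨⟨h12.le, by linarith⟩, h23.le, by simp, by simp⟩
    · intro a ha b hb
      have ha' : a.1 < r1 := by
        rw [hA, List.mem_filter] at ha; simpa using ha.2
      simp only [List.mem_cons, List.not_mem_nil, or_false] at hb
      rcases hb with rfl | rfl | rfl <;> simp only [e1, e2, e3] <;> linarith
    · intro a ha b hb
      have hb' : r3 < b.1 := by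
        rw [hB, List.mem_filter] at hb; simpa using hb.2
      rw [List.mem_append] at ha
      rcases ha with ha | ha
      · have ha' : a.1 < r1 := by
          rw [hA, List.mem_filter] at ha; simpa using ha.2
        linarith
      · simp only [List.mem_cons, List.not_mem_nil, or_false] at ha
        rcases ha with rfl | rfl | rfl <;> simp only [e1, e2, e3] <;> linarith
  · intro e
    rw [List.count_append, List.count_append, hA, hB, count_filter_real, count_filter_real,
      ← hM.2 e]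
    by_cases h1 : e.1 < r1
    · have n1 : e ≠ e1 := by rintro rfl; simp only [e1] at h1; linarith
      have n2 : e ≠ e2 := by rintro rfl; simp only [e2] at h1; linarith
      have n3 : e ≠ e3 := by rintro rfl; simp only [e3] at h1; linarith
      have h3 : ¬ (r3 < e.1) := by linarith
      rw [if_pos h1, if_neg h3]
      simp [n1.symm, n2.symm, n3.symm]
    · by_cases h3 : r3 < e.1
      · have n1 : e ≠ e1 := by rintro rfl; simp only [e1] at h3; linarith
        have n2 : e ≠ e2 := by rintro rfl; simp only [e2] at h3; linarith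
        have n3 : e ≠ e3 := by rintro rfl; simp only [e3] at h3; linarith
        rw [if_neg h1, if_pos h3]
        simp [n1.symm, n2.symm, n3.symm]
      · rw [if_neg h1, if_neg h3]
        by_cases hmem : e ∈ M
        · rcases between (hM.mem hmem) (not_lt.mp h1) (not_lt.mp h3) with rfl | rfl | rfl
          · have : ¬ IsRatEntry 7 e1 := fun h => h.not_quad quad_e1
            rw [hM.2, if_neg this, if_pos quad_e1]
            simp [hne12.symm, hne13.symm]
          · have : ¬ IsRatEntry 7 e2 := fun h => h.not_quad quad_e2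
            rw [hM.2, if_neg this, if_pos quad_e2]
            simp [hne12, hne23.symm]
          · have : ¬ IsRatEntry 7 e3 := fun h => h.not_quad quad_e3
            rw [hM.2, if_neg this, if_pos quad_e3]
            simp [hne13, hne23]
        · have h0 : M.count e = 0 := List.count_eq_zero_of_not_mem hmem
          have q1 : e ≠ e1 := by
            rintro rfl
            have := hM.2 e1
            rw [if_neg (fun h : IsRatEntry 7 e1 => h.not_quad quad_e1), if_pos quad_e1] at this
            omega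
          have q2 : e ≠ e2 := by
            rintro rfl
            have := hM.2 e2
            rw [if_neg (fun h : IsRatEntry 7 e2 => h.not_quad quad_e2), if_pos quad_e2] at this
            omega
          have q3 : e ≠ e3 := by
            rintro rfl
            have := hM.2 e3
            rw [if_neg (fun h : IsRatEntry 7 e3 => h.not_quad quad_e3), if_pos quad_e3] at this
            omega
          rw [h0]
          simp [q1.symm, q2.symm, q3.symm]

/-- **Mahler's question has a negative answer.** For every `n ≥ 1` the list `L_n` exists and is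
unique, but it is not true that for every `n ≥ 1` any three consecutive rows of `L_n` have
determinant `0`, `1` or `-1`. -/
theorem result :
    (∀ n : ℕ, 1 ≤ n → ∃! L, IsMahlerList n L) ∧
    ¬ (∀ n : ℕ, 1 ≤ n → ∀ L, IsMahlerList n L → ∀ (i : ℕ) (h : i + 2 < L.length),
        rowDet L[i] L[i + 1] L[i + 2] = 0 ∨ rowDet L[i] L[i + 1] L[i + 2] = 1 ∨
        rowDet L[i] L[i + 1] L[i + 2] = -1) := by
  refine ⟨fun n _ => exists_unique_list n, fun hall => ?_⟩
  obtain ⟨A, B, hAB⟩ := inner_seven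
  set L : List (ℤ × ℤ × ℤ) :=
    (0, 1, 0) :: ((A ++ [e1, e2, e3] ++ B).map Prod.snd ++ [(0, 0, 1)]) with hL
  have hlist : IsMahlerList 7 L := ⟨_, hAB.1, hAB.2, hL⟩
  have hL' : L = ((0, 1, 0) :: A.map Prod.snd) ++
      ([(7, -6, 1), (6, 3, -1), (7, 7, -2)] ++ (B.map Prod.snd ++ [(0, 0, 1)])) := by
    rw [hL]
    simp [e1, e2, e3]
  have hlen : (A.length + 1) + 2 < L.length := by
    rw [hL']
    simp
    omega
  have key := hall 7 (by norm_num) L hlist (A.length + 1) hlen
  have g0 : L[A.length + 1] = (7, -6, 1) := by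
    simp only [hL']
    rw [List.getElem_append_right (by simp)]
    simp
  have g1 : L[A.length + 1 + 1] = (6, 3, -1) := by
    simp only [hL']
    rw [List.getElem_append_right (by simp)]
    simp
  have g2 : L[A.length + 1 + 2] = (7, 7, -2) := by
    simp only [hL']
    rw [List.getElem_append_right (by simp)]
    simp
  rw [g0, g1, g2] at key
  have hdet : rowDet (7, -6, 1) (6, 3, -1) (7, 7, -2) = -2 := by
    simp [rowDet, Matrix.det_fin_three]
  rw [hdet] at key
  omega

end Pool.Agent.Results.MP_ca606e_nt.MahlerDisproof
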